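import Mathlib

/-!
The functor sending an AW*-algebra to the Baer *-semigroup generated by its projections is not
full: entrywise complex conjugation of `2 × 2` matrices.
-/

open Topology ComplexOrder

namespace Pool.Agent.Results.MP_dba3a1_an.NotFull

/-- `e` is the annihilating projection `Rann(S)`: `e` is a projection, and the right annihilator
`{y : x y = 0 for all x ∈ S}` is equal to `e M`. -/
def IsRann {M : Type*} [Mul M] [Zero M] [Star M] (S : Set M) (e : M) : Prop :=
  e * e = e ∧ star e = e ∧ {y : M | ∀ x ∈ S, x * y = 0} = {y : M | ∃ z : M, y = e * z}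

/-- A map preserves annihilating projections if it sends `Rann(S)` to `Rann(f(S))` for all `S`. -/
def PreservesRann {M N : Type*} [Mul M] [Zero M] [Star M] [Mul N] [Zero N] [Star N]
    (f : M → N) : Prop :=
  ∀ (S : Set M) (e : M), IsRann S e → IsRann (f '' S) (f e)

/-- An AW*-algebra is a unital C*-algebra in which every subset has an annihilating projection. -/
def IsAWStar (A : Type*) [CStarAlgebra A] : Prop := ∀ S : Set A, ∃ e : A, IsRann S e

/-- A morphism of AW*-algebras is a *-homomorphism that preserves annihilating projections. -/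
def IsAWMorphism {A B : Type*} [CStarAlgebra A] [CStarAlgebra B] (f : A →⋆ₙₐ[ℂ] B) : Prop :=
  PreservesRann f

/-- A Baer *-semigroup is a semigroup with zero and with an involution reversing products, in
which every subset has an annihilating projection. -/
structure IsBaerStarSemigroup (M : Type*) [Mul M] [Zero M] [Star M] : Prop where
  mul_assoc : ∀ x y z : M, x * y * z = x * (y * z)
  zero_mul : ∀ x : M, 0 * x = 0
  mul_zero : ∀ x : M, x * 0 = 0
  star_star : ∀ x : M, star (star x) = x
  star_mul : ∀ x y : M, star (x * y) = star y * star x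
  exists_rann : ∀ S : Set M, ∃ e : M, IsRann S e

/-- A morphism of Baer *-semigroups: it preserves products, the involution and annihilating
projections. -/
structure IsBaerMorphism {M N : Type*} [Mul M] [Zero M] [Star M] [Mul N] [Zero N] [Star N]
    (φ : M → N) : Prop where
  map_mul : ∀ x y : M, φ (x * y) = φ x * φ y
  map_star : ∀ x : M, φ (star x) = star (φ x)
  map_rann : PreservesRann φ

section PA

variable (A : Type*) [CStarAlgebra A]

/-- `P(A)`: the multiplicative submonoid of `A` generated by the set of projections. -/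
def P : Submonoid A := Submonoid.closure {p : A | p * p = p ∧ star p = p}

variable {A}

lemma zero_mem_P : (0 : A) ∈ P A :=
  Submonoid.subset_closure ⟨mul_zero 0, star_zero A⟩

lemma star_mem_P {x : A} (hx : x ∈ P A) : star x ∈ P A := by
  induction hx using Submonoid.closure_induction with
  | mem p hp => exact Submonoid.subset_closure ⟨by rw [hp.2]; exact hp.1, by rw [hp.2]; exact hp.2⟩
  | one => rw [star_one]; exact one_mem _
  | mul x y _ _ hx hy => rw [star_mul]; exact mul_mem hy hx

instance : Zero (P A) := ⟨⟨0, zero_mem_P⟩⟩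

instance : Star (P A) := ⟨fun x => ⟨star (x : A), star_mem_P x.2⟩⟩

@[simp] lemma coe_zero : ((0 : P A) : A) = 0 := rfl
@[simp] lemma coe_star (x : P A) : ((star x : P A) : A) = star (x : A) := rfl

/-- `P(A)` is a Baer *-semigroup when `A` is an AW*-algebra. -/
lemma isBaerStarSemigroup_P (hA : IsAWStar A) : IsBaerStarSemigroup (P A) where
  mul_assoc x y z := _root_.mul_assoc x y z
  zero_mul x := Subtype.ext (MulZeroClass.zero_mul (x : A))
  mul_zero x := Subtype.ext (MulZeroClass.mul_zero (x : A))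
  star_star x := Subtype.ext (_root_.star_star (x : A))
  star_mul x y := Subtype.ext (StarMul.star_mul (x : A) (y : A))
  exists_rann S := by
    obtain ⟨e, he1, he2, he3⟩ := hA (Subtype.val '' S)
    refine ⟨⟨e, Submonoid.subset_closure ⟨he1, he2⟩⟩, Subtype.ext he1, Subtype.ext he2, ?_⟩
    ext y
    have h1 : (y : A) ∈ {y : A | ∀ x ∈ Subtype.val '' S, x * y = 0} ↔
        (y : A) ∈ {y : A | ∃ z : A, y = e * z} := by rw [he3]
    simp only [Set.mem_ofPred_eq, Set.forall_mem_image] at h1 ⊢
    constructor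
    · intro h
      obtain ⟨z, hz⟩ := h1.1 fun x hx => by
        have := congrArg Subtype.val (h x hx)
        simpa using this
      refine ⟨y, Subtype.ext ?_⟩
      show (y : A) = e * y
      rw [hz, ← _root_.mul_assoc, he1]
    · rintro ⟨z, hz⟩ x hx
      refine Subtype.ext ?_
      show (x : A) * (y : A) = 0
      exact h1.2 ⟨z, congrArg Subtype.val hz⟩ hx

end PA

/-- `B(H)` is an AW*-algebra. -/
lemma isAWStar_clm (H : Type*) [NormedAddCommGroup H] [InnerProductSpace ℂ H] [CompleteSpace H] :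
    IsAWStar (H →L[ℂ] H) := by
  intro S
  let K : Submodule ℂ H := ⨅ x ∈ S, LinearMap.ker (x : H →ₗ[ℂ] H)
  have hKc : IsClosed (K : Set H) := by
    simp only [K, Submodule.coe_iInf]
    refine isClosed_iInter fun x => isClosed_iInter fun _ => ?_
    exact x.isClosed_ker
  have : CompleteSpace K := hKc.completeSpace_coe
  have hmem : ∀ v : H, v ∈ K ↔ ∀ x ∈ S, x v = 0 := fun v => by
    simp [K, Submodule.mem_iInf]
  refine ⟨K.starProjection, ?_, ?_, ?_⟩
  · exact (K.isIdempotentElem_starProjection)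
  · exact isSelfAdjoint_starProjection K
  · ext y
    simp only [Set.mem_ofPred_eq]
    constructor
    · intro h
      refine ⟨y, ?_⟩
      ext v
      have h1 : y v ∈ K := (hmem _).2 fun x hx => by
        have := congrArg (fun T : H →L[ℂ] H => T v) (h x hx)
        simpa using this
      show y v = K.starProjection (y v)
      exact (Submodule.starProjection_eq_self_iff.2 h1).symm
    · rintro ⟨z, rfl⟩ x hx
      ext v
      show x (K.starProjection (z v)) = 0
      exact (hmem _).1 (Submodule.starProjection_apply_mem K (z v)) x hx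

lemma IsAWStar.of_equiv {A B : Type*} [CStarAlgebra A] [CStarAlgebra B] (Ψ : A ≃⋆ₐ[ℂ] B)
    (hB : IsAWStar B) : IsAWStar A := by
  intro S
  obtain ⟨e, he1, he2, he3⟩ := hB (Ψ '' S)
  refine ⟨Ψ.symm e, ?_, ?_, ?_⟩
  · rw [← map_mul, he1]
  · rw [← map_star, he2]
  · ext y
    have h1 : Ψ y ∈ {y : B | ∀ x ∈ Ψ '' S, x * y = 0} ↔
        Ψ y ∈ {y : B | ∃ z : B, y = e * z} := by rw [he3]
    simp only [Set.mem_ofPred_eq, Set.forall_mem_image] at h1 ⊢
    constructor
    · intro h
      obtain ⟨z, hz⟩ := h1.1 fun x hx => by rw [← map_mul, h x hx, map_zero]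
      refine ⟨Ψ.symm z, ?_⟩
      rw [← map_mul, ← hz]
      exact (Ψ.symm_apply_apply y).symm
    · rintro ⟨z, hz⟩ x hx
      have h2 := h1.2 ⟨Ψ z, by rw [hz, map_mul]; simp⟩ hx
      rw [← map_mul] at h2
      exact Ψ.injective (h2.trans (map_zero Ψ).symm)

/-- The C*-algebra of complex `2 × 2` matrices. -/
abbrev M₂ := CStarMatrix (Fin 2) (Fin 2) ℂ

lemma isAWStar_M₂ : IsAWStar M₂ :=
  IsAWStar.of_equiv
    ((CStarMatrix.ofMatrixStarAlgEquiv (n := Fin 2) (A := ℂ)).symm.trans
      (Matrix.toEuclideanCLM (n := Fin 2) (𝕜 := ℂ))) (isAWStar_clm _)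

/-- Entrywise complex conjugation. -/
noncomputable def conj (x : M₂) : M₂ := x.map star

@[simp] lemma conj_apply (x : M₂) (i j : Fin 2) : conj x i j = star (x i j) := rfl

lemma conj_mul (x y : M₂) : conj (x * y) = conj x * conj y := by
  ext i j
  simp [CStarMatrix.mul_apply]

lemma conj_star (x : M₂) : conj (star x) = star (conj x) := by
  ext i j
  simp [CStarMatrix.star_apply]

lemma conj_conj (x : M₂) : conj (conj x) = x := by
  ext i j
  simp

lemma conj_zero : conj 0 = 0 := by
  ext i j
  simp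

lemma conj_one : conj 1 = 1 := by
  ext i j
  by_cases h : i = j <;> simp [CStarMatrix.one_apply, h]

lemma conj_mem {x : M₂} (hx : x ∈ P M₂) : conj x ∈ P M₂ := by
  induction hx using Submonoid.closure_induction with
  | mem p hp =>
    exact Submonoid.subset_closure ⟨by rw [← conj_mul, hp.1], by rw [← conj_star, hp.2]⟩
  | one => rw [conj_one]; exact one_mem _
  | mul x y _ _ hx hy => rw [conj_mul]; exact mul_mem hx hy

/-- Entrywise complex conjugation on `P(M₂)`. -/
noncomputable def φ (x : P M₂) : P M₂ := ⟨conj x, conj_mem x.2⟩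

lemma φ_mul (x y : P M₂) : φ (x * y) = φ x * φ y := Subtype.ext (conj_mul _ _)
lemma φ_star (x : P M₂) : φ (star x) = star (φ x) := Subtype.ext (conj_star _)
lemma φ_φ (x : P M₂) : φ (φ x) = x := Subtype.ext (conj_conj _)
lemma φ_zero : φ 0 = 0 := Subtype.ext conj_zero

lemma φ_isBaerMorphism : IsBaerMorphism φ where
  map_mul := φ_mul
  map_star := φ_star
  map_rann := by
    rintro S e ⟨he1, he2, he3⟩
    refine ⟨by rw [← φ_mul, he1], by rw [← φ_star, he2], ?_⟩
    ext y
    have h1 : φ y ∈ {y : P M₂ | ∀ x ∈ S, x * y = 0} ↔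
        φ y ∈ {y : P M₂ | ∃ z, y = e * z} := by rw [he3]
    simp only [Set.mem_ofPred_eq, Set.forall_mem_image] at h1 ⊢
    constructor
    · intro h
      obtain ⟨z, hz⟩ := h1.1 fun x hx => by
        have h2 := congrArg φ (h hx)
        rwa [φ_mul, φ_φ, φ_zero] at h2
      refine ⟨φ z, ?_⟩
      rw [← φ_mul, ← hz, φ_φ]
    · rintro ⟨z, rfl⟩ x hx
      have h2 := h1.2 ⟨φ z, by rw [φ_mul, φ_φ]⟩ x hx
      have h3 := congrArg φ h2
      rwa [φ_mul, φ_φ, φ_zero] at h3

/-- The projection onto the first basis vector. -/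
noncomputable def p₁ : M₂ := CStarMatrix.ofMatrix !![1, 0; 0, 0]
/-- The projection onto the line of `(1, 1)`. -/
noncomputable def p₂ : M₂ := CStarMatrix.ofMatrix !![1 / 2, 1 / 2; 1 / 2, 1 / 2]
/-- The projection onto the line of `(1, i)`. -/
noncomputable def p₃ : M₂ :=
  CStarMatrix.ofMatrix !![1 / 2, -(Complex.I / 2); Complex.I / 2, 1 / 2]

lemma p₁_mem : p₁ ∈ P M₂ := by
  refine Submonoid.subset_closure ⟨?_, ?_⟩ <;> ext i j <;> fin_cases i <;> fin_cases j <;>
    simp [p₁, CStarMatrix.mul_apply, CStarMatrix.star_apply, Fin.sum_univ_two]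

lemma p₂_mem : p₂ ∈ P M₂ := by
  refine Submonoid.subset_closure ⟨?_, ?_⟩ <;> ext i j <;> fin_cases i <;> fin_cases j <;>
    simp [p₂, CStarMatrix.mul_apply, CStarMatrix.star_apply, Fin.sum_univ_two] <;> norm_num

lemma p₃_mem : p₃ ∈ P M₂ := by
  refine Submonoid.subset_closure ⟨?_, ?_⟩ <;> ext i j <;> fin_cases i <;> fin_cases j <;>
    simp [p₃, CStarMatrix.mul_apply, CStarMatrix.star_apply, Fin.sum_univ_two] <;>
    ring_nf <;> simp <;> norm_num

/-- The product `p₁ p₂ p₃ p₁` is the non-real multiple `(1 + i) / 4` of `p₁`. -/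
lemma prod_eq : p₁ * p₂ * p₃ * p₁ = ((1 + Complex.I) / 4) • p₁ := by
  ext i j
  fin_cases i <;> fin_cases j <;>
    simp [p₁, p₂, p₃, CStarMatrix.mul_apply, Fin.sum_univ_two]
  ring

/-- **The functor `P` is not full.**  There are an AW*-algebra `A` (the complex `2 × 2` matrices)
and a morphism of Baer *-semigroups `φ : P(A) → P(A)` that is not the restriction of any morphism
of AW*-algebras `A → A`. -/
theorem result :
    ∃ (A : Type) (_ : CStarAlgebra A), IsAWStar A ∧ IsBaerStarSemigroup (P A) ∧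
      ∃ φ : P A → P A, IsBaerMorphism φ ∧
        ¬ ∃ f : A →⋆ₙₐ[ℂ] A, IsAWMorphism f ∧ ∀ x : P A, f (x : A) = (φ x : A) := by
  refine ⟨M₂, inferInstance, isAWStar_M₂, isBaerStarSemigroup_P isAWStar_M₂, φ,
    φ_isBaerMorphism, ?_⟩
  rintro ⟨f, -, hf⟩
  have h1 : p₁ * p₂ * p₃ * p₁ ∈ P M₂ :=
    mul_mem (mul_mem (mul_mem p₁_mem p₂_mem) p₃_mem) p₁_mem
  have h2 : f (p₁ * p₂ * p₃ * p₁) = conj (p₁ * p₂ * p₃ * p₁) := hf ⟨_, h1⟩
  have h3 : f p₁ = conj p₁ := hf ⟨_, p₁_mem⟩
  rw [prod_eq, map_smul, h3] at h2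
  have h4 := congrArg (fun m : M₂ => m 0 0) h2
  simp [p₁] at h4
  have h5 := congrArg Complex.im h4
  simp at h5
  norm_num at h5

end Pool.Agent.Results.MP_dba3a1_an.NotFull
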